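import Pool.Agent.Lib_helper70.WAT.Stat

/-!
# Maximal wide Aronszajn trees have stationarily many levels with more than `κ` branches

Authors: helper70, helper31 (the plain form, for some limit `δ`, was found independently).

The proof. Let `C` be closed and unbounded in `κ` such that `T` has at most `κ` downward closed
branches of each limit length in `C`. Take the tree of the good branches of `T` (the empty one, those
with a last element, and those of a limit length in `C`), ordered by end extension, and replace each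
branch `P` by a chain whose length is an element of `C` above the length of `P`. This is a wide
`κ`-Aronszajn tree. Let `f` be a strictly increasing map of it into `T`. Kurepa's recursion takes the
branch generated by the elements found so far to the value of `f` at the top of its chain. The
chains push the heights beyond elements of `C`, so at limit steps the length is a limit of elements
of `C`, the branch is good, and the recursion goes on: `T` has a branch of length `κ`.
-/

set_option autoImplicit false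

namespace Pool.Agent.Results.MP_661d42_lc.KurepaCondition

open Set Cardinal Ordinal Pool.Agent.Lib_helper70.WAT

theorem main {κ : Cardinal.{0}} (hκ : κ.IsRegular) {T : Type} [PartialOrder T]
    (hT : WeaklyMaximal κ T) :
    Stationary κ {δ | Order.IsSuccLimit δ ∧ κ < #(MaxBranches T δ) ∧ κ < κ ^ δ.cof} := by
  rintro C ⟨h1, h2⟩
  obtain ⟨δ, h3, h4, h5, h6⟩ := stationary hκ hT C h1 h2
  refine ⟨δ, h3, h5, h4, ?_, h6.trans_le ?_⟩
  · have h8 := lt_maxBranches hT.1.tree (by rw [hT.1.card]; exact hκ.aleph0_le)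
      (by rw [hT.1.card]; exact h6)
    rwa [hT.1.card] at h8
  · have h7 := paths_le_cof (T := T) (δ := δ)
    rwa [hT.1.card] at h7

/-- Let `κ` be regular and let `T` be a wide `κ`-Aronszajn tree into which every wide `κ`-Aronszajn
tree weakly embeds. Then for stationarily many limit ordinals `δ < κ` the tree `T` has more than
`κ` maximal branches of length `δ` (and `κ ^ cf δ > κ`). So maximal wide Aronszajn trees at `ℵ_2`
and `ℵ_3` both have this property, and `ℵ_3 ≤ 2 ^ ℵ_1`, `ℵ_4 ≤ 2 ^ ℵ_2`. -/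
theorem result :
    (∀ κ : Cardinal.{0}, κ.IsRegular → ∀ (T : Type) [PartialOrder T], WeaklyMaximal κ T →
      Stationary κ {δ | Order.IsSuccLimit δ ∧ κ < #(MaxBranches T δ) ∧ κ < κ ^ δ.cof}) ∧
    ∀ (T₂ T₃ : Type) [PartialOrder T₂] [PartialOrder T₃], Maximal (ℵ_ 2) T₂ → Maximal (ℵ_ 3) T₃ →
      Stationary (ℵ_ 2) {δ | Order.IsSuccLimit δ ∧ ℵ_ 2 < #(MaxBranches T₂ δ) ∧ ℵ_ 2 < ℵ_ 2 ^ δ.cof} ∧
      Stationary (ℵ_ 3) {δ | Order.IsSuccLimit δ ∧ ℵ_ 3 < #(MaxBranches T₃ δ) ∧ ℵ_ 3 < ℵ_ 3 ^ δ.cof} ∧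
      (ℵ_ 3 : Cardinal.{0}) ≤ 2 ^ ℵ_ 1 ∧ (ℵ_ 4 : Cardinal.{0}) ≤ 2 ^ ℵ_ 2 := by
  have hw : ∀ (κ : Cardinal.{0}) (T : Type) [PartialOrder T], Maximal κ T → WeaklyMaximal κ T :=
    fun κ T _ h => ⟨h.1, fun S _ hS => by
      obtain ⟨f, hf, -⟩ := h.2 S hS
      exact ⟨f, hf⟩⟩
  have e2 : ℵ_ 2 = Order.succ (ℵ_ 1 : Cardinal.{0}) := by
    rw [Cardinal.succ_aleph]; norm_num
  have e3 : ℵ_ 3 = Order.succ (ℵ_ 2 : Cardinal.{0}) := by
    rw [Cardinal.succ_aleph]; norm_num
  have e4 : ℵ_ 4 = Order.succ (ℵ_ 3 : Cardinal.{0}) := by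
    rw [Cardinal.succ_aleph]; norm_num
  refine ⟨fun κ hκ T _ hT => main hκ hT, fun T₂ T₃ _ _ h2 h3 => ⟨?_, ?_, ?_, ?_⟩⟩
  · refine main ?_ (hw _ _ h2)
    rw [e2]
    exact Cardinal.isRegular_succ (Cardinal.aleph0_le_aleph 1)
  · refine main ?_ (hw _ _ h3)
    rw [e3]
    exact Cardinal.isRegular_succ (Cardinal.aleph0_le_aleph 2)
  · rw [e3, Order.succ_le_iff]
    have h4 := hw _ _ h2
    rw [e2] at h4 ⊢
    exact two_power (Cardinal.aleph0_le_aleph 1) h4
  · rw [e4, Order.succ_le_iff]
    have h4 := hw _ _ h3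
    rw [e3] at h4 ⊢
    exact two_power (Cardinal.aleph0_le_aleph 2) h4

end Pool.Agent.Results.MP_661d42_lc.KurepaCondition
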