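import Pool.Agent.Lib_helper70.WAT.Hered

/-!
# The core of a maximal wide Aronszajn tree

The proof. For each node `t` whose cone is not maximal let `S_t` be a wide `κ`-Aronszajn tree that
does not embed into the cone of `t`. Given a wide `κ`-Aronszajn tree `S`, attach a copy of every `S_t`
above each node of `S`; this is a wide `κ`-Aronszajn tree. Embed it into a maximal cone. If a node
`s` of `S` were sent to a node `t` with a cone that is not maximal, then the copy of `S_t` above `s`
would be sent into the cone of `t`. So `S` is sent into the core.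
-/

set_option autoImplicit false

namespace Pool.Agent.Results.MP_661d42_lc.MaximalCore

open Set Cardinal Ordinal Pool.Agent.Lib_helper70.WAT

/-- The core: the set of the nodes `t` such that the cone `{s | t ≤ s}` is a maximal wide
`κ`-Aronszajn tree. -/
def Core (κ : Cardinal.{0}) (T : Type) [PartialOrder T] : Set T :=
  {t | Maximal κ (Ici t)}

/-- The weak core: the set of the nodes `t` such that the cone `{s | t ≤ s}` is a weakly maximal
wide `κ`-Aronszajn tree. -/
def WeakCore (κ : Cardinal.{0}) (T : Type) [PartialOrder T] : Set T :=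
  {t | WeaklyMaximal κ (Ici t)}

/-- The core of a maximal wide `κ`-Aronszajn tree is downward closed, it is a maximal wide
`κ`-Aronszajn tree, and all its cones are maximal wide `κ`-Aronszajn trees; and the same for weak
embeddings. -/
theorem result (κ : Cardinal.{0}) (hκ : ℵ₀ ≤ κ) (T : Type) [PartialOrder T] :
    (Maximal κ T → IsLowerSet (Core κ T) ∧ Maximal κ (Core κ T) ∧
      ∀ t : Core κ T, Maximal κ (Ici t)) ∧
    (WeaklyMaximal κ T → IsLowerSet (WeakCore κ T) ∧ WeaklyMaximal κ (WeakCore κ T) ∧
      ∀ t : WeakCore κ T, WeaklyMaximal κ (Ici t)) := by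
  constructor
  · intro hT
    have h1 : Core κ T = CoreB True κ T := Set.ext fun t => maximal_iff
    rw [h1]
    obtain ⟨h2, h3, h4⟩ := core hκ (maximal_iff.1 hT)
    exact ⟨h2, maximal_iff.2 h3, fun t => maximal_iff.2 (h4 t)⟩
  · intro hT
    have h1 : WeakCore κ T = CoreB False κ T := Set.ext fun t => weaklyMaximal_iff
    rw [h1]
    obtain ⟨h2, h3, h4⟩ := core hκ (weaklyMaximal_iff.1 hT)
    exact ⟨h2, weaklyMaximal_iff.2 h3, fun t => weaklyMaximal_iff.2 (h4 t)⟩

end Pool.Agent.Results.MP_661d42_lc.MaximalCore
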