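import Pool.Agent.Lib_helper70.WAT.Stat

/-!
# Maximality for weak embeddings is maximality

Author: helper70.

The proof. Let `κ` be regular, let `T` be weakly maximal and let `S` be a wide `κ`-Aronszajn tree.
There is an injection `e` of `S` into `κ` that is strictly increasing. Replace each node `s` of `S`
by a chain of length `e(s) + 1`; this is a wide `κ`-Aronszajn tree, so there is a strictly
increasing map `f` of it into `T`. Let `F(s)` be the value of `f` at the last point of the chain of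
`s`. The height of `F(s)` is at least `e(s)`; let `g(s)` be the element of height `e(s)` below or
equal to `F(s)`. Then `g` is strictly increasing, and it is injective since the heights of its values
are distinct.
-/

set_option autoImplicit false

namespace Pool.Agent.Results.MP_661d42_lc.WeakIsStrong

open Set Cardinal Ordinal Pool.Agent.Lib_helper70.WAT

/-- The paths with a last element and the empty path. -/
def Top {T : Type} [PartialOrder T] (P : Sig T) : Prop := P.1 = ∅ ∨ ∃ t, P.1 = Iic t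

/-- The path of the elements below or equal to `t`. -/
def below {T : Type} [PartialOrder T] (h : IsTree T) (t : T) : Sig T :=
  ⟨Iic t, isLowerSet_Iic t, hasType_of_chain h fun _ hx _ hy => h.chain_Iic t hx hy⟩

theorem below_lt {T : Type} [PartialOrder T] (h : IsTree T) {s t : T} (hst : s < t) :
    below h s < below h t := by
  refine lt_of_le_of_ne (Iic_subset_Iic.2 hst.le) fun he => ?_
  have h1 : Iic s = Iic t := congrArg Subtype.val he
  have h2 : t ∈ Iic s := by rw [h1]; exact le_rfl
  exact absurd hst (not_lt_of_ge h2)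

theorem card_top {κ : Cardinal.{0}} {T : Type} [PartialOrder T] (hκ : ℵ₀ ≤ κ)
    (hT : WideAronszajn κ T) : #{P : Sig T // Top P} ≤ κ := by
  have hU : ∀ P : {P : Sig T // Top P}, P.1.1 ∈ ({∅} ∪ range (fun t : T => Iic t) : Set (Set T)) := by
    rintro ⟨⟨P, hlow, -⟩, h1 | ⟨t, h1⟩⟩
    · exact Or.inl h1
    · exact Or.inr ⟨t, h1.symm⟩
  have hg : Function.Injective (fun P : {P : Sig T // Top P} =>
      (⟨P.1.1, hU P⟩ : ({∅} ∪ range (fun t : T => Iic t) : Set (Set T)))) :=
    fun P Q h => Subtype.ext (Subtype.ext (congrArg (fun x => x.1) h))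
  refine (Cardinal.mk_le_of_injective hg).trans ?_
  refine (Cardinal.mk_union_le _ _).trans (Cardinal.add_le_of_le hκ ?_ ?_)
  · rw [Cardinal.mk_singleton]
    exact one_le_aleph0.trans hκ
  · exact Cardinal.mk_range_le.trans_eq hT.card

/-- A small subset of `κ` is bounded. -/
theorem exists_bound {κ : Cardinal.{0}} (hκ : κ.IsRegular) {B : Set κ.ord.ToType} (hB : #B < κ) :
    ∃ y, ∀ x ∈ B, x ≤ y := by
  by_contra hcon
  push Not at hcon
  have h1 : #(⋃ x : B, Iic (x : κ.ord.ToType)) < κ :=
    (Cardinal.card_iUnion_lt_iff_forall_of_isRegular hκ hB).2 fun x => mk_Iic_lt hκ.aleph0_le _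
  have h2 : (⋃ x : B, Iic (x : κ.ord.ToType)) = Set.univ := by
    refine eq_univ_of_forall fun y => ?_
    obtain ⟨x, hx, hxy⟩ := hcon y
    exact mem_iUnion.2 ⟨⟨x, hx⟩, hxy.le⟩
  rw [h2, Cardinal.mk_univ, Cardinal.mk_ord_toType] at h1
  exact lt_irrefl _ h1

/-- There is a strictly increasing injection of a wide `κ`-Aronszajn tree into `κ`. -/
theorem exists_extension {κ : Cardinal.{0}} (hκ : κ.IsRegular) {S : Type} [PartialOrder S]
    (hS : WideAronszajn κ S) :
    ∃ e : S → κ.ord.ToType, StrictMono e ∧ Function.Injective e := by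
  classical
  have hκ' := hκ.aleph0_le
  have hc : #S = #κ.ord.ToType := by rw [hS.card, Cardinal.mk_ord_toType]
  obtain ⟨e0⟩ := Cardinal.eq.1 hc
  have hp : #κ.ord.ToType = #(κ.ord.ToType × κ.ord.ToType) := by
    rw [Cardinal.mk_prod, Cardinal.lift_id, Cardinal.mk_ord_toType, Cardinal.mul_eq_self hκ']
  obtain ⟨π⟩ := Cardinal.eq.1 hp
  have hfib : ∀ i y : κ.ord.ToType, ∃ x, (π x).1 = i ∧ y < x := by
    intro i y
    by_contra hcon
    push Not at hcon
    have h1 : Function.Injective (fun j : κ.ord.ToType =>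
        (⟨π.symm (i, j), hcon _ (by rw [π.apply_symm_apply])⟩ : Iic y)) := by
      intro j k hjk
      have h2 : π.symm (i, j) = π.symm (i, k) := congrArg Subtype.val hjk
      exact congrArg Prod.snd (π.symm.injective h2)
    have h3 := Cardinal.mk_le_of_injective h1
    rw [Cardinal.mk_ord_toType] at h3
    exact absurd h3 (not_le.2 (mk_Iic_lt hκ' y))
  have hex : ∀ (s : S) (g : ∀ r : S, r < s → κ.ord.ToType),
      ∃ x, (π x).1 = e0 s ∧ ∀ r hr, g r hr < x := by
    intro s g
    have h1 : #(range fun r : Iio s => g r.1 r.2) < κ := by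
      refine Cardinal.mk_range_le.trans_lt ?_
      obtain ⟨α, hα⟩ := hS.tree.wo s
      rw [hasType_card hα, ← Cardinal.lt_ord]
      exact hS.below s α hα
    obtain ⟨y, hy⟩ := exists_bound hκ h1
    obtain ⟨x, hx, hyx⟩ := hfib (e0 s) y
    exact ⟨x, hx, fun r hr => (hy _ ⟨⟨r, hr⟩, rfl⟩).trans_lt hyx⟩
  let e : S → κ.ord.ToType := hS.tree.wf.fix fun s g => (hex s g).choose
  have he : ∀ s, e s = (hex s fun r _ => e r).choose := fun s => hS.tree.wf.fix_eq _ s
  have h1 : ∀ s, (π (e s)).1 = e0 s := fun s => by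
    rw [he s]
    exact (hex s fun r _ => e r).choose_spec.1
  have h2 : ∀ s r, r < s → e r < e s := fun s r hr => by
    have := (hex s fun r _ => e r).choose_spec.2 r hr
    rwa [← he s] at this
  refine ⟨e, fun r s hr => h2 s r hr, fun r s hrs => e0.injective ?_⟩
  rw [← h1 r, ← h1 s, hrs]

theorem main {κ : Cardinal.{0}} (hκ : κ.IsRegular) {T : Type} [PartialOrder T]
    (hT : WeaklyMaximal κ T) : Maximal κ T := by
  classical
  have hκ' := hκ.aleph0_le
  refine ⟨hT.1, fun S _ hS => ?_⟩
  obtain ⟨e, hemono, heinj⟩ := exists_extension hκ hS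
  have hne : Nonempty κ.ord.ToType := by
    obtain ⟨r, -⟩ := hS.tree.least
    exact ⟨e r⟩
  let b' : Sig S → κ.ord.ToType := fun P =>
    if h : ∃ s, P.1 = Iic s then e h.choose else hne.some
  have hb' : ∀ s, b' (below hS.tree s) = e s := by
    intro s
    have h : ∃ s', (below hS.tree s).1 = Iic s' := ⟨s, rfl⟩
    have h1 : b' (below hS.tree s) = e h.choose := dif_pos h
    rw [h1]
    have h2 : Iic s = Iic h.choose := h.choose_spec
    rw [Iic_inj.1 h2.symm]
  obtain ⟨f, hf⟩ := hT.2 (Inf κ S Top b') (inf_wide hκ hS (fun P hP => Or.inl hP)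
    (fun P t hP => Or.inr ⟨t, hP⟩) (card_top hκ' hS))
  let q : ∀ (s : S) (i : κ.ord.ToType), i ≤ e s → Inf κ S Top b' := fun s i hi =>
    ⟨toLex (below hS.tree s, i), Or.inr ⟨s, rfl⟩, by rw [← hb' s] at hi; exact hi⟩
  let F : S → T := fun s => f (q s (e s) le_rfl)
  have hF : ∀ s s', s < s' → F s < F s' := fun s s' h =>
    hf ((Inf.lt_iff _ _).2 (Or.inl (below_lt hS.tree h)))
  have hht : ∀ s, ∃ y, y ≤ F s ∧
      HasType (Iio y) (Ordinal.typein (fun a b : κ.ord.ToType => a < b) (e s)) := by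
    intro s
    obtain ⟨β, hβ⟩ := hT.1.tree.wo (F s)
    have h1 : Ordinal.typein (fun a b : κ.ord.ToType => a < b) (e s) ≤ β :=
      hasType_le (hasType_typein (e s)) hβ
        (fun i => ⟨f (q s i (le_of_lt i.2)), hf ((Inf.lt_iff _ _).2 (Or.inr ⟨rfl, i.2⟩))⟩)
        fun i j hij => hf ((Inf.lt_iff _ _).2 (Or.inr ⟨rfl, hij⟩))
    rcases h1.lt_or_eq with h2 | h2
    · obtain ⟨y, hy, hy'⟩ := exists_height (isLowerSet_Iio (F s)) hβ h2
      exact ⟨y, le_of_lt hy, hy'⟩
    · exact ⟨F s, le_rfl, h2 ▸ hβ⟩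
  choose g hg hg' using hht
  have hinj : Function.Injective g := by
    intro s s' h
    have h1 := hg' s
    rw [h] at h1
    exact heinj (Ordinal.typein_injective (fun a b : κ.ord.ToType => a < b)
      (hasType_unique h1 (hg' s')))
  refine ⟨g, fun r s hrs => ?_, hinj⟩
  rcases hT.1.tree.chain_Iic (F s) ((hg r).trans (hF r s hrs).le) (hg s) with h1 | h1
  · exact lt_of_le_of_ne h1 fun h => hrs.ne (hinj h)
  · have h2 : Ordinal.typein (fun a b : κ.ord.ToType => a < b) (e s) ≤
        Ordinal.typein (fun a b : κ.ord.ToType => a < b) (e r) :=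
      hasType_le (hg' s) (hg' r) (fun x => ⟨x.1, lt_of_lt_of_le x.2 h1⟩) fun x y hxy => hxy
    have h3 := (Ordinal.typein_lt_typein (fun a b : κ.ord.ToType => a < b)).2 (hemono hrs)
    exact absurd h3 (not_lt.2 h2)

/-- For regular `κ`, a wide `κ`-Aronszajn tree is maximal (for embeddings) if and only if it is
maximal for weak embeddings. -/
theorem result (κ : Cardinal.{0}) (hκ : κ.IsRegular) (T : Type) [PartialOrder T] :
    Maximal κ T ↔ WeaklyMaximal κ T :=
  ⟨fun h => ⟨h.1, fun S _ hS => by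
    obtain ⟨f, hf, -⟩ := h.2 S hS
    exact ⟨f, hf⟩⟩, main hκ⟩

end Pool.Agent.Results.MP_661d42_lc.WeakIsStrong
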